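import Pool.Agent.Helper46.SP.CoreSpec

open Cardinal Set
open scoped Pointwise

namespace Pool.Agent.Helper55.SP

open Pool.Agent.Helper46.SP

variable {Q : Par} {S : CodeSys Q}

theorem fm_mono (𝒞 : Set (RC S)) (x : RN Q) (T : Set (RN Q × P0 Q × RC S)) {p p' : P0 Q}
    {c c' : RC S} (hp : p' ≤ p) (hc : c ⊆ c') (h : FM 𝒞 x T p c) : FM 𝒞 x T p' c' :=
  fun q hq d hd hcd => h q (hq.trans hp) d hd (hc.trans hcd)

theorem fe_mono (𝒞 : Set (RC S)) (T T' : Set (RN Q × P0 Q × RC S)) {p p' : P0 Q}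
    {c c' : RC S} (hp : p' ≤ p) (hc : c ⊆ c') (h : FE 𝒞 T T' p c) : FE 𝒞 T T' p' c' :=
  fun q hq d hd hcd => h q (hq.trans hp) d hd (hc.trans hcd)

theorem fm_dense (𝒞 : Set (RC S)) (x : RN Q) (T : Set (RN Q × P0 Q × RC S)) {p : P0 Q} {c : RC S}
    (h : ∀ p' ≤ p, ∀ c' ∈ 𝒞, c ⊆ c' → ∃ p'' ≤ p', ∃ c'' ∈ 𝒞, c' ⊆ c'' ∧ FM 𝒞 x T p'' c'') :
    FM 𝒞 x T p c := by
  intro p' hp' c' hc' hcc'
  obtain ⟨p2, hp2, c2, hc2, hcc2, hf⟩ := h p' hp' c' hc' hcc'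
  obtain ⟨p3, hp3, c3, hc3, hcc3, t, ht, h1, h2, h3⟩ := hf p2 le_rfl c2 hc2 subset_rfl
  exact ⟨p3, hp3.trans hp2, c3, hc3, hcc2.trans hcc3, t, ht, h1, h2, h3⟩

theorem st_rfacts (hC : ST_cfacts) (hR : ST_RN) : ST_rfacts := by
  intro Q S
  have C := hC Q S
  have R := hR Q
  have hgen : ∀ (ξ : Q.Lev) (A : S.U), ∀ t ∈ S.G A, ∀ p ≤ t.2.1,
      ∀ c ∈ (CC (ξ : Stg Q) : Set (RC S)),
      t.2.2 ⊆ c → FM (CC (ξ : Stg Q)) t.1 (S.G A) p c := by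
    intro ξ A t ht p hp c hc htc p' hp' c' hc' hcc'
    exact ⟨p', le_rfl, c', hc', subset_rfl, t, ht, hp'.trans hp, htc.trans hcc', R.refl _ _⟩
  refine ⟨?_, ?_, ?_, ?_, hgen, ?_, ?_⟩
  · intro ζ x T
    refine ⟨fun y hy => hy.1, ?_, ?_⟩
    · rintro y hy p hp c hc hyc
      exact ⟨hc, fm_mono _ _ _ hp hyc hy.2⟩
    · intro p c hc h
      refine ⟨hc, fm_dense _ _ _ fun p' hp' c' hc' hcc' => ?_⟩
      obtain ⟨p2, hp2, c2, hc2, hcc2, hf⟩ := h p' hp' c' hc' hcc'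
      exact ⟨p2, hp2, c2, hc2, hcc2, hf.2⟩
  · intro ζ T T'
    refine ⟨fun y hy => hy.1, ?_, ?_⟩
    · rintro y hy p hp c hc hyc
      exact ⟨hc, fe_mono _ _ _ hp hyc hy.2⟩
    · intro p c hc h
      refine ⟨hc, fun p' hp' c' hc' hcc' x => ?_⟩
      constructor
      · intro hf
        refine fm_dense _ _ _ fun p2 hp2 c2 hc2 hcc2 => ?_
        obtain ⟨p3, hp3, c3, hc3, hcc3, hfe⟩ := h p2 (hp2.trans hp') c2 hc2 (hcc'.trans hcc2)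
        exact ⟨p3, hp3, c3, hc3, hcc3, (hfe.2 p3 le_rfl c3 hc3 subset_rfl x).1
          (fm_mono _ _ _ (hp3.trans hp2) (hcc2.trans hcc3) hf)⟩
      · intro hf
        refine fm_dense _ _ _ fun p2 hp2 c2 hc2 hcc2 => ?_
        obtain ⟨p3, hp3, c3, hc3, hcc3, hfe⟩ := h p2 (hp2.trans hp') c2 hc2 (hcc'.trans hcc2)
        exact ⟨p3, hp3, c3, hc3, hcc3, (hfe.2 p3 le_rfl c3 hc3 subset_rfl x).2
          (fm_mono _ _ _ (hp3.trans hp2) (hcc2.trans hcc3) hf)⟩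
  · intro ζ ξ b hξ hb
    refine ⟨fun y hy => hy.1, ?_, ?_⟩
    · rintro y hy p hp c hc hyc
      exact ⟨hc, hb.down _ hy.2 p hp _ (C.cut ζ ξ c hc) (fun t ht => ⟨hyc ht.1, ht.2⟩)⟩
    · intro p c hc h
      refine ⟨hc, hb.dense _ _ (C.cut ζ ξ c hc) fun p' hp' d hd hcd => ?_⟩
      obtain ⟨ha1, ha2⟩ := C.amalg ζ ξ c d hc hd hξ hcd
      obtain ⟨p2, hp2, c2, hc2, hcc2, hf⟩ := h p' hp' (c ∪ d) ha1 subset_union_left
      refine ⟨p2, hp2, _, C.cut ζ ξ c2 hc2, ?_, hf.2⟩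
      intro t ht
      rw [← ha2] at ht
      exact ⟨hcc2 ht.1, ht.2⟩
  · intro ζ b b' hb hb'
    refine ⟨fun y hy => hy.1, ?_, ?_⟩
    · rintro y hy p hp c hc hyc
      exact ⟨hc, fun q hq d hd hcd => hy.2 q (hq.trans hp) d hd (hyc.trans hcd)⟩
    · intro p c hc h
      refine ⟨hc, fun p1 hp1 c1 hc1 hcc1 hb1 => ?_⟩
      refine hb'.dense _ _ hc1 fun p2 hp2 c2 hc2 hcc2 => ?_
      obtain ⟨p3, hp3, c3, hc3, hcc3, hf⟩ := h p2 (hp2.trans hp1) c2 hc2 (hcc1.trans hcc2)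
      refine ⟨p3, hp3, c3, hc3, hcc3, hf.2 p3 le_rfl c3 hc3 subset_rfl ?_⟩
      exact hb.down _ hb1 p3 (hp3.trans hp2) c3 hc3 (hcc2.trans hcc3)
  · intro ζ x x' T p c hxx hf p' hp' c' hc' hcc'
    obtain ⟨p2, hp2, c2, hc2, hcc2, t, ht, h1, h2, h3⟩ := hf p' hp' c' hc' hcc'
    refine ⟨p2, hp2, c2, hc2, hcc2, t, ht, h1, h2, ?_⟩
    exact R.trans _ _ _ _ (R.mono _ _ _ _ (R.symm _ _ _ hxx) (hp2.trans hp')) h3
  · intro ξ A B hA hB hAB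
    refine S.ext A B (hA.lev.trans hB.lev.symm) ?_
    have aux : ∀ A B : S.U, SN ξ A → SN ξ B →
        (∀ x p, ∀ c ∈ (CC (ξ : Stg Q) : Set (RC S)), FM (CC (ξ : Stg Q)) x (S.G A) p c →
          FM (CC (ξ : Stg Q)) x (S.G B) p c) → S.G A ⊆ S.G B := by
      intro A B hA hB h t ht
      obtain ⟨h1, h2⟩ := hA.small t ht
      have h3 := hgen ξ A t ht t.2.1 le_rfl t.2.2 h1 subset_rfl
      exact hB.canon t.1 t.2.1 t.2.2 h1 h2 (h _ _ _ h1 h3)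
    refine Set.Subset.antisymm (aux A B hA hB fun x p c hc hf => ?_)
      (aux B A hB hA fun x p c hc hf => ?_)
    · exact (hAB p le_top c hc (empty_subset _) x).1 hf
    · exact (hAB p le_top c hc (empty_subset _) x).2 hf

end Pool.Agent.Helper55.SP
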