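import Pool.Agent.Helper46.SP.CoreSpec

open Cardinal Set
open scoped Pointwise

namespace Pool.Agent.Helper55.SP

open Pool.Agent.Helper46.SP

variable {Q : Par} {S : CodeSys Q}

theorem uover_mono {A : S.U} {Z W : Set (Idx Q)} (h : UOver A Z) (hZW : Z ⊆ W) : UOver A W := by
  obtain ⟨z, hz, h1, h2⟩ := h
  exact ⟨z, hz.trans hZW, h1, h2⟩

theorem card_smul_set {α : Type} [MulAction (Grp Q) α] (g : Grp Q) (z : Set α) :
    #(g • z : Set α) = #z := by
  have : (g • z : Set α) = (fun x => g • x) '' z := rfl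
  rw [this]
  exact Cardinal.mk_image_eq (MulAction.injective g)

theorem uover_smul (g : Grp Q) {A : S.U} {Z : Set (Idx Q)} (h : UOver A Z) :
    UOver (g • A) (g • Z) := by
  obtain ⟨z, hz, h1, h2⟩ := h
  refine ⟨g • z, Set.smul_set_mono hz, ?_, ?_⟩
  · rw [card_smul_set, S.lev_smul]
    exact h1
  · intro k hk
    have h3 : (g⁻¹ * k * g) • A = A := by
      apply h2
      intro i hi
      have h4 := hk (g • i) (Set.smul_mem_smul_set hi)
      rw [mul_smul, mul_smul, h4, inv_smul_smul]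
    calc k • g • A = g • (g⁻¹ * k * g) • A := by
          rw [smul_smul, smul_smul]; congr 1; group
      _ = g • A := by rw [h3]

theorem uover_congr {g h : Grp Q} {A : S.U} {Z : Set (Idx Q)} (hA : UOver A Z)
    (hgh : ∀ i ∈ Z, g • i = h • i) : g • A = h • A := by
  obtain ⟨z, hz, h1, h2⟩ := hA
  have h3 : (h⁻¹ * g) • A = A := by
    apply h2
    intro i hi
    rw [mul_smul, hgh i (hz hi), inv_smul_smul]
  calc g • A = h • (h⁻¹ * g) • A := by rw [smul_smul]; congr 1; group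
    _ = h • A := by rw [h3]

theorem uover_below (G : GFacts S) (ξ : Q.Lev) {A : S.U} {Z : Set (Idx Q)} (hA : SN ξ A)
    (h : UOver A Z) : UOver A (Z ∩ below (ξ : Stg Q)) := by
  classical
  obtain ⟨z, hz, h1, h2⟩ := h
  refine ⟨z ∩ below (ξ : Stg Q), Set.inter_subset_inter_left _ hz,
    (Cardinal.mk_le_mk_of_subset Set.inter_subset_left).trans h1, ?_⟩
  intro g hg
  set h : Grp Q := fun k => if (∀ ξ' : Q.Lev, k = some ξ' → (ξ' : Stg Q) < (ξ : Stg Q)) then g k
    else 1 with hh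
  have hbel : ∀ i ∈ (below (ξ : Stg Q) : Set (Idx Q)), h • i = g • i := by
    intro i hi
    rw [smul_idx, smul_idx]
    have : h i.1 = g i.1 := if_pos hi
    rw [this]
  have hnb : ∀ i ∉ (below (ξ : Stg Q) : Set (Idx Q)), h • i = i := by
    intro i hi
    rw [smul_idx]
    have : h i.1 = 1 := if_neg hi
    rw [this]
    rfl
  have hfix : h • A = A := by
    apply h2
    intro i hi
    by_cases hb : i ∈ (below (ξ : Stg Q) : Set (Idx Q))
    · rw [hbel i hb]
      exact hg i ⟨hi, hb⟩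
    · exact hnb i hb
  have h3 : (h⁻¹ * g) • A = A := by
    apply G.snFix ξ _ A hA
    intro i hi
    rw [mul_smul, ← hbel i hi, inv_smul_smul]
  calc g • A = h • (h⁻¹ * g) • A := by rw [smul_smul]; congr 1; group
    _ = A := by rw [h3, hfix]

theorem lab_smul (g : Grp Q) (l : Lab Q) : lab (g • l) = g • lab l := rfl

theorem lab_inj {l l' : Lab Q} (h : lab l = lab l') : l = l' := by
  have h1 : (some l.1 : Option Q.Lev) = some l'.1 := congrArg (fun i : Idx Q => i.1) h
  have h2 : l.2 = l'.2 := congrArg (fun i : Idx Q => i.2) h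
  exact Prod.ext (Option.some_injective _ h1) h2

theorem st_ofacts (hC : ST_cfacts) (hG : ST_gfacts) (hR : ST_RN) : ST_ofacts := by
  intro Q S
  have C := hC Q S
  have G := hG Q S
  have R := hR Q
  have names : ∀ (ζ : Stg Q) (c : RC S), c ∈ CC ζ → ∀ t ∈ c, SN (tlev t) t.1 := by
    intro ζ c hc t ht
    obtain ⟨-, h2, h3⟩ := mem_CC.mp hc
    exact (h3 (tlev t) (h2 t ht)).name t ht rfl
  have uniq : ∀ (d : RC S) (A : S.U) (l : Lab Q) (v v' : RN Q), d ∈ (CC ⊤ : Set (RC S)) →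
      (A, l, v) ∈ d → (A, l, v') ∈ d → v = v' := by
    intro d A l v v' hd h1 h2
    obtain ⟨-, h3, h4⟩ := mem_CC.mp hd
    have h5 : (l.1 : Stg Q) < ⊤ := h3 _ h1
    have h6 := (h4 l.1 h5).fn _ h1 _ h2 rfl rfl ⊤ (cut d (l.1 : Stg Q)) (C.cut _ _ _ hd)
      subset_rfl (fun _ _ _ _ _ _ => Iff.rfl)
    exact R.eq_of_top _ _ h6
  have coverSmul : ∀ (g : Grp Q) (c : RC S) (Z : Set (Idx Q)), COver c Z →
      COver (g • c) (g • Z) := by
    rintro g c Z h t ⟨s, hs, rfl⟩
    obtain ⟨h1, h2, h3⟩ := h s hs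
    exact ⟨uover_smul g h1, Set.smul_mem_smul_set h2, R.over_smul g _ _ h3⟩
  have coverLev : ∀ (ζ : Stg Q) (c : RC S) (Z : Set (Idx Q)), COver c Z → Z ⊆ below ζ →
      ∀ t ∈ c, (tlev t : Stg Q) < ζ := by
    intro ζ c Z h hZ t ht
    exact hZ (h t ht).2.1 _ rfl
  have closedSub : ∀ (c d : RC S) (Z : Set (Idx Q)), Closed c Z → c ⊆ d →
      d ∈ (CC ⊤ : Set (RC S)) → DClosed d Z ∧ rst d Z = c := by
    intro c d Z hc hcd hd
    have key : ∀ t ∈ d, UOver t.1 Z → lab t.2.1 ∈ Z → t.2.2.Over Z ∧ t ∈ c := by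
      intro t ht h1 h2
      have h3 := names _ _ hd t ht
      have h4 : S.lev t.1 = tlev t := h3.lev
      obtain ⟨v, hv, hv'⟩ := hc.closed t.1 t.2.1 (by rw [h4]; exact h3) h1 h4.symm h2
      have h5 : v = t.2.2 := uniq d t.1 t.2.1 v t.2.2 hd (hcd hv') ht
      rw [h5] at hv hv'
      exact ⟨hv, hv'⟩
    refine ⟨fun t ht h1 h2 => (key t ht h1 h2).1, ?_⟩
    apply Set.Subset.antisymm
    · intro t ht
      exact (key t ht.1 ht.2.1 ht.2.2).2
    · intro t ht
      obtain ⟨h1, h2, -⟩ := hc.ovr t ht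
      exact ⟨hcd ht, h1, h2⟩
  have dclosedSmul : ∀ (g : Grp Q) (d : RC S) (Z : Set (Idx Q)), DClosed d Z →
      DClosed (g • d) (g • Z) ∧ rst (g • d) (g • Z) = g • rst d Z := by
    intro g d Z h
    have hinv : ∀ s : Trip S, UOver (g • s).1 (g • Z) → UOver s.1 Z := by
      intro s hs
      have := uover_smul g⁻¹ hs
      rw [inv_smul_smul] at this
      have h2 : g⁻¹ • (g • s).1 = s.1 := inv_smul_smul g s.1
      rw [h2] at this
      exact this
    have hlab : ∀ s : Trip S, lab (g • s).2.1 ∈ g • Z → lab s.2.1 ∈ Z := by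
      intro s hs
      have h1 : lab (g • s).2.1 = g • lab s.2.1 := rfl
      rw [h1] at hs
      exact (Set.smul_mem_smul_set_iff).mp hs
    constructor
    · rintro t ⟨s, hs, rfl⟩ h1 h2
      exact R.over_smul g _ _ (h s hs (hinv s h1) (hlab s h2))
    · apply Set.Subset.antisymm
      · rintro t ⟨⟨s, hs, rfl⟩, h1, h2⟩
        exact ⟨s, ⟨hs, hinv s h1, hlab s h2⟩, rfl⟩
      · rintro t ⟨s, ⟨hs, h1, h2⟩, rfl⟩
        exact ⟨⟨s, hs, rfl⟩, uover_smul g h1, Set.smul_mem_smul_set h2⟩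
  refine
    { uoverMono := fun A Z W h hZW => uover_mono h hZW
      uoverBelow := fun ξ A Z hA h => uover_below G ξ hA h
      uoverSmul := fun g A Z h => uover_smul g h
      uoverCongr := fun g h A Z hA hgh => uover_congr hA hgh
      coverMono := ?_
      coverSmul := coverSmul
      coverCongr := ?_
      coverLev := coverLev
      closedSmul := ?_
      closedCut := ?_
      closedStage := ?_
      closedSub := closedSub
      dclosedInter := ?_
      dclosedSmul := dclosedSmul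
      rstSub := fun d Z t ht => ht.1
      rstCover := fun d Z h t ht => ⟨ht.2.1, ht.2.2, h t ht.1 ht.2.1 ht.2.2⟩
      uniq := uniq
      names := names }
  · intro c Z W h hZW t ht
    obtain ⟨h1, h2, h3⟩ := h t ht
    exact ⟨uover_mono h1 hZW, hZW h2, R.over_mono _ _ _ h3 hZW⟩
  · intro g h c Z hc hgh
    have key : ∀ t ∈ c, g • t = h • t := by
      intro t ht
      obtain ⟨h1, h2, h3⟩ := hc t ht
      have e1 : g • t.1 = h • t.1 := uover_congr h1 hgh
      have e2 : g • t.2.1 = h • t.2.1 := lab_inj (hgh _ h2)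
      have e3 : g • t.2.2 = h • t.2.2 := R.smul_congr g h _ _ h3 hgh
      exact Prod.ext e1 (Prod.ext e2 e3)
    apply Set.Subset.antisymm
    · rintro _ ⟨t, ht, rfl⟩
      exact ⟨t, ht, (key t ht).symm⟩
    · rintro _ ⟨t, ht, rfl⟩
      exact ⟨t, ht, key t ht⟩
  · intro g c Z hc
    refine ⟨G.cc _ g c hc.cond, ?_, coverSmul g c Z hc.ovr, ?_⟩
    · rw [card_smul_set]; exact hc.card
    · intro A l hA hAZ hl hlZ
      have h1 := G.sn (S.lev A) g⁻¹ A hA
      have h2 := uover_smul g⁻¹ hAZ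
      rw [inv_smul_smul] at h2
      obtain ⟨v, hv, hv'⟩ := hc.closed (g⁻¹ • A) (g⁻¹ • l) (by rw [S.lev_smul]; exact h1) h2
        (by rw [S.lev_smul]; exact hl) (by
          rw [lab_smul]
          exact Set.mem_smul_set_iff_inv_smul_mem.mp hlZ)
      refine ⟨g • v, R.over_smul g v Z hv, (g⁻¹ • A, g⁻¹ • l, v), hv', ?_⟩
      show (g • g⁻¹ • A, g • g⁻¹ • l, g • v) = _
      rw [smul_inv_smul, smul_inv_smul]
  · intro ξ c Z hc
    refine ⟨C.mono ξ ⊤ le_top (C.cut ⊤ ξ c hc.cond),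
      (Cardinal.mk_le_mk_of_subset Set.inter_subset_left).trans hc.card, ?_, ?_⟩
    · intro t ht
      obtain ⟨h1, h2, h3⟩ := hc.ovr t ht.1
      have h4 := names _ _ hc.cond t ht.1
      refine ⟨uover_mono (uover_below G (tlev t) h4 h1) ?_, ⟨h2, ?_⟩, R.over_below _ _ _ h3⟩
      · refine Set.inter_subset_inter_right _ ?_
        intro i hi ξ' hξ'
        exact (hi ξ' hξ').trans ht.2
      · intro ξ' hξ'
        have : t.2.1.1 = ξ' := Option.some_injective _ hξ'
        rw [← this]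
        exact ht.2
    · intro A l hA hAZ hl hlZ
      obtain ⟨v, hv, hv'⟩ := hc.closed A l hA (uover_mono hAZ Set.inter_subset_left) hl hlZ.1
      exact ⟨v, R.over_below _ _ _ hv, hv', hlZ.2 _ rfl⟩
  · intro ζ c Z hc hZ
    exact C.ofLev ζ ⊤ c hc.cond (coverLev ζ c Z hc.ovr hZ)
  · intro d Z W hZ hW t ht h1 h2
    exact R.over_inter _ _ _ (hZ t ht (uover_mono h1 Set.inter_subset_left) h2.1)
      (hW t ht (uover_mono h1 Set.inter_subset_right) h2.2)

end Pool.Agent.Helper55.SP
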